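import Mathlib
import Pool.Agent.H759R2.Kad.Props6

open scoped ComplexOrder InnerProductSpace ComplexConjugate
open Finset

noncomputable section

namespace H759R2.Kad

universe u v

namespace H228all

variable {A : Type u} [CStarAlgebra A]

/-- Positive functionals are bounded on self-adjoint elements. -/
theorem re_bd (φ : A →ₗ[ℂ] ℂ) (hpos : ∀ a, 0 ≤ φ (star a * a)) {y : A} (hy : star y = y)
    {δ : ℝ} (hδ : ‖y‖ ≤ δ) : (φ y).re ≤ δ * (φ 1).re := by
  letI := CStarAlgebra.spectralOrder A
  letI := CStarAlgebra.spectralOrderedRing A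
  have h1 : y ≤ algebraMap ℝ A ‖y‖ := IsSelfAdjoint.le_algebraMap_norm_self (a := y) hy
  have h2 : algebraMap ℝ A ‖y‖ ≤ algebraMap ℝ A δ := algebraMap_mono A hδ
  have h3 : 0 ≤ algebraMap ℝ A δ - y := sub_nonneg.2 (h1.trans h2)
  obtain ⟨c, hc⟩ := CStarAlgebra.nonneg_iff_eq_star_mul_self.1 h3
  have h4 := hpos c
  rw [← hc, map_sub] at h4
  have h5 : algebraMap ℝ A δ = ((δ : ℝ) : ℂ) • (1 : A) := by
    rw [Algebra.algebraMap_eq_smul_one]
    simp
  rw [h5, map_smul] at h4
  have h6 := (Complex.le_def.1 h4).1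
  simp only [smul_eq_mul, Complex.sub_re, Complex.mul_re, Complex.ofReal_re, Complex.ofReal_im,
    zero_mul, sub_zero, Complex.zero_re] at h6
  linarith

theorem pos_sa {b : A} (h : Pos b) : star b = b := by
  obtain ⟨y, rfl⟩ := h
  rw [star_mul, star_star]

end H228all

open H228all

theorem prove6_all (h : W_step.{u}) : W_all.{u} := by
  intro A _ hA φ hφ p hp ε hε hyp x hpx hxp
  obtain ⟨v, b, hv, hb, hbb, hxv, hvb, -, hl, hr⟩ := hA.polar x
  have hbs := pos_sa hb
  have hps := hp.1
  -- `p v = v = v p`
  have hpv : p * v = v := by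
    have h1 := hl (1 - p) (by rw [sub_mul, one_mul, hpx, sub_self])
    rw [sub_mul, one_mul, sub_eq_zero] at h1
    exact h1.symm
  have hvp : v * p = v := by
    have h1 := hr (1 - p) (by rw [mul_sub, mul_one, hxp, sub_self])
    rw [mul_sub, mul_one, sub_eq_zero] at h1
    exact h1.symm
  set s := star v * v with hs
  have hsP : Prj s := by
    constructor
    · rw [hs, star_mul, star_star]
    · have : v * star v * v = v := hv
      calc star v * v * (star v * v) = star v * (v * star v * v) := by noncomm_ring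
        _ = star v * v := by rw [this]
  have hsp : s * p = s := by rw [hs, mul_assoc, hvp]
  set c := b * b with hc
  have hcP : Pos c := ⟨b, by rw [hbs]⟩
  have hcs : star c = c := pos_sa hcP
  have hsc : s * c = c := by rw [hc, ← mul_assoc, hvb]
  have hxx : x * star x = v * c * star v := by
    rw [hxv, star_mul, hbs, hc]
    noncomm_ring
  rw [hxx, ← hbb]
  set K := (‖v‖ * ‖v‖ + (1 + ε)) * (φ 1).re with hK
  have h1pos : 0 ≤ (φ 1).re := by
    have := hφ.pos 1
    rw [star_one, one_mul] at this
    exact (Complex.le_def.1 this).1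
  have hK0 : 0 ≤ K := by positivity
  refine le_of_forall_pos_le_add fun η hη => ?_
  obtain ⟨n, e, l, he, hd⟩ := h A hA c s hcP hsP hsc (η / (K + 1)) (by positivity)
  set δ := η / (K + 1) with hδ
  have hδK : δ * K ≤ η := by
    rw [hδ, div_mul_eq_mul_div, div_le_iff₀ (by linarith)]
    nlinarith
  set S := ∑ i, (l i : ℂ) • e i with hS
  have hSs : star S = S := by
    rw [hS, star_sum]
    refine Finset.sum_congr rfl fun i _ => ?_
    rw [star_smul, (he i).2.1.1]
    simp
  -- the inequality for `S`
  have key : (φ (v * S * star v)).re ≤ (1 + ε) * (φ S).re := by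
    have e1 : φ (v * S * star v) = ∑ i, (l i : ℂ) * φ (v * e i * star v) := by
      rw [hS, Finset.mul_sum, Finset.sum_mul, map_sum]
      refine Finset.sum_congr rfl fun i _ => ?_
      rw [mul_smul_comm, smul_mul_assoc, map_smul, smul_eq_mul]
    have e2 : φ S = ∑ i, (l i : ℂ) * φ (e i) := by
      rw [hS, map_sum]
      refine Finset.sum_congr rfl fun i _ => ?_
      rw [map_smul, smul_eq_mul]
    rw [e1, e2, Complex.re_sum, Complex.re_sum, Finset.mul_sum]
    refine Finset.sum_le_sum fun i _ => ?_
    obtain ⟨hl0, heP, hse⟩ := he i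
    have hes : e i * s = e i := by
      have := congrArg star hse
      rw [star_mul, heP.1, hsP.1] at this
      exact this
    have hep : e i * p = e i := by
      calc e i * p = e i * s * p := by rw [hes]
        _ = e i * (s * p) := mul_assoc _ _ _
        _ = e i := by rw [hsp, hes]
    have a1 : star (v * e i) * (v * e i) = e i := by
      rw [star_mul, heP.1]
      calc e i * star v * (v * e i) = e i * (star v * v) * e i := by noncomm_ring
        _ = e i := by rw [← hs, hes, heP.2]
    have a2 : (v * e i) * star (v * e i) = v * e i * star v := by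
      rw [star_mul, heP.1]
      calc v * e i * (e i * star v) = v * (e i * e i) * star v := by noncomm_ring
        _ = v * e i * star v := by rw [heP.2]
    have a3 : PIs (v * e i) := by
      unfold PIs
      rw [mul_assoc, a1, mul_assoc, heP.2]
    have a4 := hyp (v * e i) a3 (by rw [← mul_assoc, hpv]) (by rw [mul_assoc, hep])
    rw [a1, a2] at a4
    simp only [Complex.mul_re, Complex.ofReal_re, Complex.ofReal_im, zero_mul, sub_zero]
    nlinarith
  have hd1 : ‖v * (c - S) * star v‖ ≤ δ * (‖v‖ * ‖v‖) := by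
    calc ‖v * (c - S) * star v‖ ≤ ‖v‖ * ‖c - S‖ * ‖star v‖ :=
          (norm_mul_le _ _).trans (mul_le_mul_of_nonneg_right (norm_mul_le _ _) (norm_nonneg _))
      _ = ‖c - S‖ * (‖v‖ * ‖v‖) := by rw [norm_star]; ring
      _ ≤ δ * (‖v‖ * ‖v‖) := mul_le_mul_of_nonneg_right hd (by positivity)
  have hb1 := re_bd φ hφ.pos (y := v * (c - S) * star v) (by
    rw [star_mul, star_mul, star_star, star_sub, hcs, hSs, mul_assoc]) hd1
  have hd2 : ‖S - c‖ ≤ δ := by rw [norm_sub_rev]; exact hd
  have hb2 := re_bd φ hφ.pos (y := S - c) (by rw [star_sub, hcs, hSs]) hd2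
  have e3 : φ (v * (c - S) * star v) = φ (v * c * star v) - φ (v * S * star v) := by
    rw [← map_sub]
    congr 1
    noncomm_ring
  rw [e3, Complex.sub_re] at hb1
  rw [map_sub, Complex.sub_re] at hb2
  have hfin : (φ (v * c * star v)).re ≤ (1 + ε) * (φ c).re + δ * K := by
    have e4 : (1 + ε) * (φ S).re ≤ (1 + ε) * ((φ c).re + δ * (φ 1).re) :=
      mul_le_mul_of_nonneg_left (by linarith) (by linarith)
    rw [hK]
    nlinarith
  linarith

end H759R2.Kad
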