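import Mathlib
import Pool.Agent.H759R2.Kad.Props6

open scoped ComplexOrder InnerProductSpace ComplexConjugate
open Finset

noncomputable section

namespace H759R2.Kad

universe u v

namespace H228sep

variable {H : Type u} [NormedAddCommGroup H] [InnerProductSpace ℂ H] [CompleteSpace H]
  (M : VonNeumannAlgebra H)

/-- Vector functional. -/
def vec (ξ : H) : M.toStarSubalgebra →ₗ[ℂ] ℂ where
  toFun a := ⟪ξ, (a : H →L[ℂ] H) ξ⟫_ℂ
  map_add' a b := by
    change ⟪ξ, ((a : H →L[ℂ] H) + (b : H →L[ℂ] H)) ξ⟫_ℂ = _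
    rw [ContinuousLinearMap.add_apply, inner_add_right]
  map_smul' c a := by
    change ⟪ξ, (c • (a : H →L[ℂ] H)) ξ⟫_ℂ = _
    rw [ContinuousLinearMap.smul_apply, inner_smul_right]
    rfl

theorem vec_apply (ξ : H) (a : M.toStarSubalgebra) :
    vec M ξ a = ⟪ξ, (a : H →L[ℂ] H) ξ⟫_ℂ := rfl

/-- `φ (w u* u w*) = ‖u w* ξ‖²` -/
theorem vec_sq (ξ : H) (w u : M.toStarSubalgebra) :
    vec M ξ (w * (star u * u) * star w) =
      ((‖(u : H →L[ℂ] H) (star (w : H →L[ℂ] H) ξ)‖ ^ 2 : ℝ) : ℂ) := by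
  rw [vec_apply]
  change ⟪ξ, ((w : H →L[ℂ] H) * (star (u : H →L[ℂ] H) * (u : H →L[ℂ] H)) *
    star (w : H →L[ℂ] H)) ξ⟫_ℂ = _
  simp only [ContinuousLinearMap.mul_apply, ContinuousLinearMap.star_eq_adjoint]
  rw [← ContinuousLinearMap.adjoint_inner_left, ContinuousLinearMap.adjoint_inner_right,
    inner_self_eq_norm_sq_to_K]
  norm_cast

theorem sq_bd {a b δ : ℝ} (ha : 0 ≤ a) (_hb : 0 ≤ b) (hδ : 0 ≤ δ) (h : a ≤ b + δ) :
    a ^ 2 - 2 * δ * a ≤ b ^ 2 := by
  rcases le_total a δ with h1 | h1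
  · nlinarith [sq_nonneg b, mul_nonneg ha hδ]
  · have h2 : (a - δ) ^ 2 ≤ b ^ 2 := pow_le_pow_left₀ (by linarith) (by linarith) 2
    nlinarith [sq_nonneg δ]

end H228sep

open H228sep

theorem prove6_sep (h : C_chain.{u}) : C_sep.{u} := by
  intro H _ _ _ M p hp hp0
  have hx : ∃ x : H, (p : H →L[ℂ] H) x ≠ 0 := by
    by_contra hcon
    push Not at hcon
    apply hp0
    apply Subtype.ext
    ext x
    rw [hcon x]
    rfl
  obtain ⟨x, hx⟩ := hx
  set ξ : H := (p : H →L[ℂ] H) x with hξ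
  have hpξ : (p : H →L[ℂ] H) ξ = ξ := by
    have := congrArg (fun a : M.toStarSubalgebra => (a : H →L[ℂ] H) x) hp.2
    exact this
  refine ⟨vec M ξ, ⟨fun a => ?_, ?_⟩, ?_⟩
  · have := vec_sq M ξ 1 a
    rw [one_mul, star_one, mul_one] at this
    rw [this]
    exact Complex.zero_le_real.2 (sq_nonneg _)
  · intro w C V hC hV ε hε
    set y : H := star (w : H →L[ℂ] H) ξ with hy
    set A := ‖(V : H →L[ℂ] H) y‖ with hA
    set B := ‖star (V : H →L[ℂ] H) y‖ with hB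
    have hA0 : 0 ≤ A := norm_nonneg _
    have hB0 : 0 ≤ B := norm_nonneg _
    set δ := ε / (2 * (A + B + 1)) with hδ
    have hδ0 : 0 < δ := by positivity
    have hδe : 2 * δ * (A + B + 1) = ε := by
      rw [hδ]
      field_simp
    obtain ⟨v, hvC, hv⟩ := (h H M C hC).2 V hV 1 (fun _ => y) δ hδ0
    obtain ⟨h1, h2⟩ := hv 0
    refine ⟨v, hvC, ?_, ?_⟩
    · rw [vec_sq, vec_sq, Complex.ofReal_re, Complex.ofReal_re]
      have h3 : A ≤ ‖(v : H →L[ℂ] H) y‖ + δ := by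
        have := norm_le_norm_add_norm_sub' ((V : H →L[ℂ] H) y) ((v : H →L[ℂ] H) y)
        linarith
      have h4 := sq_bd hA0 (norm_nonneg _) hδ0.le h3
      nlinarith [mul_nonneg hδ0.le hB0]
    · have e1 : w * (V * star V) * star w = w * (star (star V) * star V) * star w := by
        rw [star_star]
      have e2 : w * (v * star v) * star w = w * (star (star v) * star v) * star w := by
        rw [star_star]
      rw [e1, e2, vec_sq, vec_sq, Complex.ofReal_re, Complex.ofReal_re]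
      have h3 : B ≤ ‖star (v : H →L[ℂ] H) y‖ + δ := by
        have := norm_le_norm_add_norm_sub' (star (V : H →L[ℂ] H) y) (star (v : H →L[ℂ] H) y)
        linarith
      have h4 := sq_bd hB0 (norm_nonneg _) hδ0.le h3
      change B ^ 2 - ε ≤ ‖star (v : H →L[ℂ] H) y‖ ^ 2
      nlinarith [mul_nonneg hδ0.le hA0]
  · rw [vec_apply, hpξ, inner_self_eq_norm_sq_to_K]
    have : ‖ξ‖ ≠ 0 := norm_ne_zero_iff.2 hx
    exact pow_ne_zero 2 (RCLike.ofReal_ne_zero.2 this)

end H759R2.Kad
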