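import Mathlib
import Pool.Agent.H759R2.Kad.Props7

open scoped ComplexOrder InnerProductSpace ComplexConjugate
open Finset

noncomputable section

namespace H759R2.Kad

universe u v

theorem prove7_fac : Q_fac.{u, v} := by
  intro A _ 𝒰 F _ q hq H _ _ _ w hw c hc hwc hz
  have key : ∀ a, ‖w a‖ ≤ c * ‖q a‖ := by
    intro a
    refine le_of_forall_pos_le_add fun η hη => ?_
    obtain ⟨z, hz1, hz2⟩ := hq.low a (η / (c + 1)) (by positivity)
    have h1 : w a = w (z * a) := by rw [hw.mul, hz z hz1, one_mul]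
    rw [h1]
    refine (hwc _).trans ?_
    refine (mul_le_mul_of_nonneg_left hz2 hc).trans ?_
    have h2 : c * (η / (c + 1)) ≤ η := by
      rw [mul_div_assoc', div_le_iff₀ (by linarith)]
      nlinarith
    linarith
  have hcong : ∀ a b, q a = q b → w a = w b := by
    intro a b hab
    have h1 := key (a - b)
    rw [map_sub, map_sub, hab, sub_self, norm_zero, mul_zero] at h1
    exact sub_eq_zero.1 (norm_le_zero_iff.1 h1)
  have hinv : ∀ y, q (Function.surjInv hq.surj y) = y := Function.surjInv_eq hq.surj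
  let w' : F →ₗ[ℂ] (H →L[ℂ] H) :=
    { toFun := fun y => w (Function.surjInv hq.surj y)
      map_add' := fun x y => by
        rw [← map_add]
        apply hcong
        rw [map_add, hinv, hinv, hinv]
      map_smul' := fun r x => by
        rw [RingHom.id_apply, ← map_smul]
        apply hcong
        rw [map_smul, hinv, hinv] }
  have hw' : ∀ y, w' y = w (Function.surjInv hq.surj y) := fun _ => rfl
  refine ⟨w', ⟨fun x y => ?_, ?_⟩, fun y => ?_, fun a => ?_⟩
  · rw [hw', hw', hw', ← hw.mul]
    apply hcong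
    rw [map_mul, hinv, hinv, hinv]
  · rw [hw', ← hw.one]
    apply hcong
    rw [hinv, map_one]
  · rw [hw']
    have := key (Function.surjInv hq.surj y)
    rwa [hinv] at this
  · rw [hw']
    exact hcong _ _ (hinv _)

theorem prove7_lvl : Q_lvl.{u, v} := by
  intro A _ _ _ F _ _ _ q H _ _ _ w w' hw m K hK hL Y
  have hn : ‖CStarMatrix.mapₙₐ (n := Fin m) (q.toNonUnitalStarAlgHom : A →⋆ₙₐ[ℂ] F) Y‖ ≤ ‖Y‖ :=
    NonUnitalStarAlgHom.norm_apply_le _ _
  have he : amp w' (Fin m) (CStarMatrix.mapₙₐ (n := Fin m)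
      (q.toNonUnitalStarAlgHom : A →⋆ₙₐ[ℂ] F) Y) = amp w (Fin m) Y := by
    ext ξ i
    rw [amp_apply, amp_apply]
    refine Finset.sum_congr rfl fun j _ => ?_
    rw [← hw]
    rfl
  rw [← he]
  exact (hL _).trans (mul_le_mul_of_nonneg_left hn hK)

end H759R2.Kad
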